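import Pool.Agent.HMT.Stmts

open scoped Classical

namespace Pool.Agent.HMT.H70

theorem coa (hMai : MaiStmt) : CoaStmt := by
  intro P ε s hε h
  obtain ⟨g, hg⟩ := exists_nat_gt (1 / ε)
  have hg0 : (0 : ℝ) < g := lt_trans (by positivity) hg
  have hg1 : 1 < ε * g := by
    rw [div_lt_iff₀ hε] at hg
    linarith
  -- thin graphs have few edges
  have key : ∀ (V : Type) [Finite V] (G : SimpleGraph V), Thin g G →
      ¬ ((1 + ε) * Nat.card V < Nat.card G.edgeSet) := by
    intro V _ G hG hlt
    have h1 := hG.2.2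
    have h2 : (g : ℝ) * Nat.card G.edgeSet ≤ (g + 1) * Nat.card V := by exact_mod_cast h1
    have h3 : (0 : ℝ) ≤ Nat.card V := by positivity
    have h4 : (g : ℝ) * ((1 + ε) * Nat.card V) < g * Nat.card G.edgeSet := by gcongr
    have h5 : (g : ℝ) * ((1 + ε) * Nat.card V) = (g + ε * g) * Nat.card V := by ring
    nlinarith
  rcases h with h | h
  · refine hMai P g s (Or.inl ?_)
    intro V W _ _ G H hG hH hVW hs _ _
    constructor
    · intro hm
      exact absurd (h V G hs hm) (key V G hG)
    · intro hm
      exact absurd (h W H (hVW ▸ hs) hm) (key W H hH)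
  · refine hMai P g s (Or.inr ?_)
    intro V W _ _ G H hG hH hVW hs _ _
    constructor
    · intro hm
      have h1 := h V Gᶜ hs hm
      rw [compl_compl] at h1
      exact absurd h1 (key V G hG)
    · intro hm
      have h1 := h W Hᶜ (hVW ▸ hs) hm
      rw [compl_compl] at h1
      exact absurd h1 (key W H hH)

end Pool.Agent.HMT.H70
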