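import Pool.Agent.HMT.Stmts

open scoped Classical

namespace Pool.Agent.HMT.H70

/-- a two-colourable graph of order more than `2 m` has an independent set of size `m` -/
theorem exists_indep {V : Type} [Finite V] (G : SimpleGraph V) (hG : G.Colorable 2) (m : ℕ)
    (hm : 2 * m < Nat.card V) :
    ∃ f : Fin m → V, Function.Injective f ∧ ∀ a b, ¬ G.Adj (f a) (f b) := by
  obtain ⟨C⟩ := hG
  have := Fintype.ofFinite V
  rw [Nat.card_eq_fintype_card] at hm
  obtain ⟨y, hy⟩ := Fintype.exists_lt_card_fiber_of_mul_lt_card (fun v => C v) (n := m)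
    (by simpa using hm)
  set S := Finset.univ.filter fun v => C v = y with hS
  let e := S.equivFin.symm
  refine ⟨fun a => (e ⟨a.1, lt_trans a.2 hy⟩ : V), ?_, ?_⟩
  · intro a b hab
    have h1 := e.injective (Subtype.ext hab)
    simpa [Fin.ext_iff] using h1
  · intro a b hadj
    have h1 : ∀ x : S, C (x : V) = y := fun x => by
      have h2 : (x : V) ∈ S := x.2
      exact (Finset.mem_filter.1 h2).2
    exact C.valid hadj ((h1 _).trans (h1 _).symm)

theorem iso_bot {V : Type} (G : SimpleGraph V) {m : ℕ} (f : Fin m → V)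
    (hf : Function.Injective f) (h : ∀ a b, ¬ G.Adj (f a) (f b)) :
    Nonempty (G.induce (Set.range f) ≃g (⊥ : SimpleGraph (Fin m))) := by
  refine ⟨⟨(Equiv.ofInjective f hf).symm, ?_⟩⟩
  rintro ⟨_, a, rfl⟩ ⟨_, b, rfl⟩
  constructor
  · intro h1
    exact absurd h1 (by simp)
  · intro h1
    exact absurd h1 (h a b)

theorem iso_top {V : Type} (G : SimpleGraph V) {m : ℕ} (f : Fin m → V)
    (hf : Function.Injective f) (h : ∀ a b, ¬ G.Adj (f a) (f b)) :
    Nonempty (Gᶜ.induce (Set.range f) ≃g (⊤ : SimpleGraph (Fin m))) := by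
  refine ⟨⟨(Equiv.ofInjective f hf).symm, ?_⟩⟩
  rintro ⟨_, a, rfl⟩ ⟨_, b, rfl⟩
  have h2 : ∀ c, (Equiv.ofInjective f hf).symm ⟨f c, c, rfl⟩ = c := fun c => by
    rw [Equiv.symm_apply_eq]
    rfl
  rw [h2, h2]
  constructor
  · intro h1
    exact ⟨fun h3 => h1 (hf h3), h a b⟩
  · intro h1 h3
    rw [h3] at h1
    exact h1.1 rfl

theorem cod (hMai : MaiStmt) (_ : HciStmt) : CodStmt := by
  intro P hher
  by_cases hA : ∀ N : ℕ, ∃ n, N ≤ n ∧ ∃ G H : SimpleGraph (Fin n), P.mem G ∧ P.mem H ∧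
      ¬ Nonempty (G ≃g H)
  · intro N
    obtain ⟨n, hn, G, H, hG, hH, hGH⟩ := hA N
    refine ⟨n, hn, G, H, hGH, ?_⟩
    have key : ∀ (K : SimpleGraph (Fin n)), P.mem K → ∀ i, hc P K i =
        Nat.card {π : Setoid (Fin n) // Nat.card (Quotient π) = i} := by
      intro K hK i
      exact Nat.card_congr (Equiv.subtypeEquivRight fun π =>
        ⟨fun h => h.1, fun h => ⟨h, fun v => hher _ K _ hK⟩⟩)
    unfold harary
    refine Finset.sum_congr rfl fun i _ => ?_
    rw [key G hG, key H hH]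
  · push Not at hA
    obtain ⟨N, hN⟩ := hA
    set m := max N 2 with hm
    have hm2 : 2 ≤ m := le_max_right _ _
    have hNm := hN m (le_max_left _ _)
    by_cases hb : P.mem (⊥ : SimpleGraph (Fin m))
    · have ht : ¬ P.mem (⊤ : SimpleGraph (Fin m)) := by
        intro ht
        obtain ⟨e⟩ := hNm ⊥ ⊤ hb ht
        have h1 : (⊤ : SimpleGraph (Fin m)).Adj (e ⟨0, by omega⟩) (e ⟨1, by omega⟩) := by
          rw [SimpleGraph.top_adj]
          intro h2
          have h3 := e.injective h2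
          simp [Fin.ext_iff] at h3
        rw [e.map_adj_iff] at h1
        exact h1
      refine hMai P 1 (2 * m) (Or.inr ?_)
      have key : ∀ (V : Type) [Finite V] (G : SimpleGraph V), Thin 1 G → 2 * m < Nat.card V →
          ¬ P.mem Gᶜ := by
        intro V _ G hG hV hmem
        obtain ⟨f, hf, hf2⟩ := exists_indep G hG.1 m hV
        exact ht ((P.iso _ _ (iso_top G f hf hf2)).1 (hher V Gᶜ _ hmem))
      intro V W _ _ G H hG hH hVW hs _ _
      exact ⟨fun h => absurd h (key V G hG hs), fun h => absurd h (key W H hH (hVW ▸ hs))⟩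
    · refine hMai P 1 (2 * m) (Or.inl ?_)
      have key : ∀ (V : Type) [Finite V] (G : SimpleGraph V), Thin 1 G → 2 * m < Nat.card V →
          ¬ P.mem G := by
        intro V _ G hG hV hmem
        obtain ⟨f, hf, hf2⟩ := exists_indep G hG.1 m hV
        exact hb ((P.iso _ _ (iso_bot G f hf hf2)).1 (hher V G _ hmem))
      intro V W _ _ G H hG hH hVW hs _ _
      exact ⟨fun h => absurd h (key V G hG hs), fun h => absurd h (key W H hH (hVW ▸ hs))⟩

end Pool.Agent.HMT.H70
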