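import Pool.Agent.HMT.Stmts

open scoped Classical

namespace Pool.Agent.HMT.H70

theorem crd : CrdStmt := by
  intro q T hq
  constructor
  · have h1 : Nat.card (Fin q → Bool) ≤ Nat.card ((cf q T).Vert 1) := by
      refine Nat.card_le_card_of_injective
        (fun j : Fin q → Bool => (Sum.inr (Sum.inl j) : (cf q T).Vert 1)) ?_
      intro a b hab
      exact Sum.inl_injective (Sum.inr_injective hab)
    have h2 : Nat.card (Fin q → Bool) = 2 ^ q := by
      rw [Nat.card_eq_fintype_card]
      simp
    rw [h2] at h1
    exact (Nat.lt_two_pow_self).le.trans h1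
  · have hjk : (fun _ : Fin q => false) ≠ (fun _ : Fin q => true) := by
      intro h
      have := congrFun h ⟨0, hq⟩
      simp at this
    exact Nat.card_congr ((cf q T).sig 1 (-1) rfl (fun _ : Fin q => false) (fun _ : Fin q => true)
      hjk 1)

end Pool.Agent.HMT.H70
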