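import Pool.Agent.HMT.Stmts

open scoped Classical

namespace Pool.Agent.HMT.H70

theorem pow_aux (q : ℕ) (hq : 10 ≤ q) : 4 * (q + 1) ^ 2 < 2 ^ q := by
  induction q, hq using Nat.le_induction with
  | base => norm_num
  | succ n hn ih =>
    have h1 : 2 ^ (n + 1) = 2 * 2 ^ n := by ring
    rw [h1]
    nlinarith

theorem exists_q (N c : ℕ) : ∃ q, N ≤ q ∧ 1 ≤ q ∧ c + (2 * (q + 1) ^ 2 + 1) < 2 ^ q := by
  refine ⟨max 10 (max N c), (le_max_left _ _).trans (le_max_right _ _),
    le_trans (by norm_num) (le_max_left _ _), ?_⟩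
  set q := max 10 (max N c) with hq
  have h1 : c ≤ q := (le_max_right _ _).trans (le_max_right _ _)
  have h2 := pow_aux q (le_max_left _ _)
  nlinarith

theorem mai (_ : HciStmt) (hFin : FinStmt) (hCpl : CplStmt) (hKeq : KeqStmt) (hPig : PigStmt)
    (hTrb : TrbStmt) (hThb : ThbStmt) (hThg : ThgStmt) (hThe : TheStmt) (hNis : NisStmt)
    (hCrd : CrdStmt) : MaiStmt := by
  have key : ∀ (P : GProp) (g s : ℕ), Insens P g s → InfMates P := by
    intro P g s hP
    refine hFin P fun N => ?_
    obtain ⟨q, hqN, hq1, hq2⟩ := exists_q N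
      (Fintype.card (Σ m : Fin (s + 1), (Fin m.val → Option (Fin m.val))))
    obtain ⟨hc1, hc2⟩ := hCrd q g hq1
    have hX : (cf q g).AllXch s := by
      refine hPig (cf q g) s (2 * (q + 1) ^ 2) (hTrb q g) ?_
      have h1 : Fintype.card (cf q g).J = 2 ^ q := by
        rw [← Nat.card_eq_fintype_card]
        have h2 : Nat.card (Fin q → Bool) = 2 ^ q := by
          rw [Nat.card_eq_fintype_card]
          simp
        exact h2
      rw [h1]
      exact hq2
    have hT : (cf q g).AllThin g := fun ε Z B =>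
      ⟨hThb q g ε Z B, hThg q g g ε Z B le_rfl, hThe q g g ε Z B le_rfl⟩
    exact ⟨(cf q g).Vert 1, (cf q g).Vert (-1), inferInstance, inferInstance,
      (cf q g).Gr 1 Finset.univ, (cf q g).Gr (-1) Finset.univ, hqN.trans hc1, hc2, hNis q g,
      fun i => hKeq (cf q g) P g s hP hT hX Finset.univ i⟩
  rintro P g s (h | h)
  · exact key P g s h
  · exact hCpl P (key P.co g s h)

end Pool.Agent.HMT.H70
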